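import Mathlib

/-! Small facts: separating functionals, solving holomorphic linear systems, equality from a
dense set. -/

set_option autoImplicit false

namespace Pool.Agent.Lib.MP_5c318e_ag.Or

open Matrix Filter Topology

/-- independent functions have dual combinations of point evaluations -/
theorem exists_dual {U l : Type} [Fintype l] [DecidableEq l] (f : l → U → ℂ)
    (h : ∀ c : l → ℂ, (∀ p, ∑ j, c j * f j p = 0) → c = 0) (i : l) :
    ∃ (n : ℕ) (t : Fin n → ℂ) (p : Fin n → U), ∀ j,
      ∑ s, t s * f j (p s) = (1 : Matrix l l ℂ) i j := by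
  have top : Submodule.span ℂ (Set.range fun p j => f j p) = ⊤ := by
    by_contra ne
    obtain ⟨g, g0, hg⟩ := Submodule.exists_le_ker_of_lt_top _ (lt_top_iff_ne_top.2 ne)
    have := h (fun j => g fun k => if j = k then 1 else 0) fun p => by
      have e : g (fun j => f j p) = 0 := hg (Submodule.subset_span ⟨p, rfl⟩)
      rw [LinearMap.pi_apply_eq_sum_univ] at e
      simpa only [smul_eq_mul, mul_comm] using e
    refine g0 (LinearMap.ext fun v => ?_)
    rw [LinearMap.pi_apply_eq_sum_univ]
    exact Finset.sum_eq_zero fun j _ => by rw [congrFun this j]; simp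
  have m : (fun j => (1 : Matrix l l ℂ) i j) ∈ Submodule.span ℂ (Set.range fun p j => f j p) := by
    rw [top]; trivial
  obtain ⟨n, t, g, e⟩ := Submodule.mem_span_set'.1 m
  choose p hp using fun s => (g s).2
  refine ⟨n, t, p, fun j => ?_⟩
  rw [← congrFun e j, Finset.sum_apply]
  exact Finset.sum_congr rfl fun s _ => by rw [Pi.smul_apply, ← hp s, smul_eq_mul]

variable {E : Type} [NormedAddCommGroup E] [NormedSpace ℂ E] {x : E}

theorem an_det {l : Type} [Fintype l] [DecidableEq l] {N : E → Matrix l l ℂ}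
    (h : ∀ i j, AnalyticAt ℂ (fun y => N y i j) x) : AnalyticAt ℂ (fun y => (N y).det) x := by
  simp only [det_apply']
  exact Finset.analyticAt_fun_sum _ fun σ _ =>
    analyticAt_const.mul (Finset.analyticAt_fun_prod _ fun i _ => h _ _)

/-- the solution of a holomorphic linear system is holomorphic -/
theorem exists_sol {l : Type} [Fintype l] [DecidableEq l] {N : E → Matrix l l ℂ} {r : E → l → ℂ}
    (h : ∀ i j, AnalyticAt ℂ (fun y => N y i j) x) (hr : ∀ i, AnalyticAt ℂ (fun y => r y i) x)
    (h0 : (N x).det ≠ 0) : ∃ a : E → l → ℂ, (∀ j, AnalyticAt ℂ (fun y => a y j) x) ∧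
      ∀ᶠ y in 𝓝 x, ∀ c, N y *ᵥ c = r y → c = a y := by
  refine ⟨fun y j => ((N y).updateCol j (r y)).det / (N y).det, fun j =>
    (an_det fun i k => ?_).div (an_det h) h0, ?_⟩
  · simp only [updateCol_apply]
    split_ifs
    exacts [hr i, h i k]
  · filter_upwards [(an_det h).continuousAt.eventually_ne h0] with y hy c e
    funext j
    rw [eq_div_iff hy, ← cramer_apply, ← e, cramer_eq_adjugate_mulVec, mulVec_mulVec, adjugate_mul,
      smul_mulVec, one_mulVec, Pi.smul_apply, smul_eq_mul, mul_comm]

theorem eq_of_closure {X : Type} [TopologicalSpace X] {f g : X → ℂ} {T : Set X} {x : X}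
    (hx : x ∈ closure T) (hf : ContinuousWithinAt f T x) (hg : ContinuousWithinAt g T x)
    (e : ∀ᶠ y in 𝓝 x, y ∈ T → f y = g y) : f x = g x := by
  have := mem_closure_iff_nhdsWithin_neBot.1 hx
  exact tendsto_nhds_unique_of_eventuallyEq hf hg (eventually_nhdsWithin_iff.2 e)

end Pool.Agent.Lib.MP_5c318e_ag.Or
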