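import Pool.Agent.Lib.MP_5c318e_ag.O.VFull
import Pool.Agent.Lib.MP_5c318e_ag.O.Lin
import Pool.Agent.Lib.MP_5c318e_ag.Ku.KGram
import Pool.Agent.Lib.MP_5c318e_ag.Ku.Norm

/-! The span of a full family of invariant functions is preserved by the metric connection. -/

set_option autoImplicit false
set_option linter.unusedSectionVars false

namespace Pool.Agent.Lib.MP_5c318e_ag.Ku

open Matrix Filter Topology MeasureTheory Polynomial
open Pool.Agent.Lib.MP_5c318e_ag.V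
open scoped ComplexConjugate

noncomputable section

variable {A R ν κ : Type} [NormedAddCommGroup A] [NormedSpace ℂ A] [CommRing R] [Fintype ν]
  [Fintype κ]

/-- every invariant element of the space at `a` is a combination of the `φ i` -/
def Full (C : FC A R ν) (q : MvPolynomial (κ × Option ν) R) (M : ℕ) (G : Subgroup (Equiv.Perm κ))
    (a : A) {l : Type} [Fintype l] (φ : l → (κ → Vp ν) → ℂ) : Prop :=
  ∀ (h : MvPolynomial (κ × ν) ℂ) (ψ : (κ → Vp ν) → ℂ), h ≠ 0 →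
    (∀ p ∈ C.Fk a, MvPolynomial.eval (xs p) h ≠ 0 → HolAt (C.Fk a) ψ p) →
    (∀ σ ∈ G, ∀ p, ψ (fun k => p (σ k)) = ψ p) →
    ∫⁻ p, ENNReal.ofReal (‖ψ p‖ ^ 2 * C.wt q M a p) ∂C.μk a < ⊤ →
    ∃ (c : l → ℂ) (h' : MvPolynomial (κ × ν) ℂ), h' ≠ 0 ∧
      ∀ p ∈ C.Fk a, MvPolynomial.eval (xs p) h' ≠ 0 → ψ p = ∑ i, c i * φ i p

/-- permuting the slots -/
abbrev pm (σ : Equiv.Perm κ) (p : κ → Vp ν) : κ → Vp ν := fun k => p (σ k)

theorem ana_pm (σ : Equiv.Perm κ) (p : κ → Vp ν) : AnalyticAt ℂ (pm (ν := ν) σ) p :=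
  analyticAt_pi_iff.2 fun k => (ContinuousLinearMap.proj (σ k) : (κ → Vp ν) →L[ℂ] Vp ν).analyticAt _

variable {C : FC A R ν} {q : MvPolynomial (κ × Option ν) R} {M n w : ℕ} {S : Set A} {a : A}

/-- square integrable for the weight -/
def FC.L2 (C : FC A R ν) (q : MvPolynomial (κ × Option ν) R) (M : ℕ) (a : A)
    (φ : (κ → Vp ν) → ℂ) : Prop :=
  MemLp (fun p => φ p * (√(C.wt q M a p) : ℝ)) 2 (C.μk a)

theorem FC.sq_sw (z : ℂ) (p : κ → Vp ν) :
    ‖z * (√(C.wt q M a p) : ℝ)‖ ^ 2 = ‖z‖ ^ 2 * C.wt q M a p := by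
  rw [norm_mul, mul_pow, Complex.norm_real, Real.norm_eq_abs, sq_abs,
    Real.sq_sqrt (FC.wt_nonneg a p)]

theorem FC.L2.lint {φ : (κ → Vp ν) → ℂ} (h : C.L2 q M a φ) :
    ∫⁻ p, ENNReal.ofReal (‖φ p‖ ^ 2 * C.wt q M a p) ∂C.μk a < ⊤ := by
  have := (memLp_two_iff_integrable_sq_norm h.1).1 h
  simp only [FC.sq_sw] at this
  exact this.lintegral_lt_top

theorem FC.l2_of (ha : a ∈ C.S0) {φ : (κ → Vp ν) → ℂ} (m : AEStronglyMeasurable φ (C.μk a))
    (h : ∫⁻ p, ENNReal.ofReal (‖φ p‖ ^ 2 * C.wt q M a p) ∂C.μk a < ⊤) : C.L2 q M a φ := by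
  have m' : AEStronglyMeasurable (fun p => φ p * (√(C.wt q M a p) : ℝ)) (C.μk a) :=
    m.mul (Complex.continuous_ofReal.comp (FC.wt_cont ha).sqrt).aestronglyMeasurable
  refine (memLp_two_iff_integrable_sq_norm m').2 ((lintegral_ofReal_ne_top_iff_integrable
    (m'.norm.pow 2) (Eventually.of_forall fun p => sq_nonneg _)).1 ?_)
  simp only [Pi.pow_apply, FC.sq_sw]
  exact h.ne

theorem FC.L2.int {φ ψ : (κ → Vp ν) → ℂ} (h : C.L2 q M a φ) (h' : C.L2 q M a ψ) :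
    Integrable (fun p => conj (φ p) * ψ p * (C.wt q M a p : ℂ)) (C.μk a) := by
  refine (MemLp.integrable_mul (p := 2) (q := 2) (MemLp.star h) h').congr
    (Eventually.of_forall fun p => ?_)
  have : ((√(C.wt q M a p) : ℝ) : ℂ) * (√(C.wt q M a p) : ℝ) = C.wt q M a p := by
    rw [← Complex.ofReal_mul, Real.mul_self_sqrt (FC.wt_nonneg a p)]
  simp only [Pi.mul_apply, Pi.star_apply, star_mul', Complex.star_def, Complex.conj_ofReal]
  rw [← this]
  ring

theorem FC.ae_Fk (ha : a ∈ C.S0) : ∀ᵐ p ∂C.μk (κ := κ) a, p ∈ C.Fk a :=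
  (C.ae ha one_ne_zero).mono fun _ h => h.1

theorem FC.L2.perm (ha : a ∈ C.S0) {σ : Equiv.Perm κ}
    (hσ : ∀ p ∈ C.Fk a, ‖C.evp a (pm σ p) q‖ = ‖C.evp a p q‖) {φ : (κ → Vp ν) → ℂ}
    (h : C.L2 q M a φ) : C.L2 q M a fun p => φ (pm σ p) := by
  refine (memLp_congr_ae ?_).1 (MemLp.comp_measurePreserving h (C.perm ha σ))
  filter_upwards [FC.ae_Fk ha] with p hp
  simp only [Function.comp, FC.wt, hσ p hp]

namespace Kum

variable (K : Kum C q M S n w) (hS : S ⊆ C.S0) (ha : a ∈ S)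
include hS ha

theorem l2 {φ : (κ → Vp ν) → ℂ} (h : C.Mem q M K.g a φ) : C.L2 q M a φ :=
  FC.l2_of (hS ha) (C.aesm (hS ha) (K.g_ne a ha) fun p hp h0 => h.1 p ⟨hp, by
    rw [MvPolynomial.eval₂_eq_eval_map]; exact h0⟩) h.2

theorem pair {l : Type} [Fintype l] {φ : l → (κ → Vp ν) → ℂ} (h : ∀ i, C.Mem q M K.g a (φ i))
    {ψ : (κ → Vp ν) → ℂ} {c : l → ℂ} (e : ∀ᵐ p ∂C.μk a, ψ p = ∑ j, c j * φ j p) (i : l) :
    M * ∫ p, conj (φ i p) * ψ p * (C.wt q M a p : ℂ) ∂C.μk a =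
      ∑ j, c j * qf (K.W.H a) (K.cl a (φ i)) (K.cl a (φ j)) := by
  have I := fun j => ((K.l2 hS ha (h i)).int (K.l2 hS ha (h j))).const_mul (c j)
  rw [integral_congr_ae (g := fun p => ∑ j, c j * (conj (φ i p) * φ j p * (C.wt q M a p : ℂ))),
    integral_finset_sum _ fun j _ => I j, Finset.mul_sum]
  · refine Finset.sum_congr rfl fun j _ => ?_
    rw [K.adj a ha _ _ (h i) (K.cl_top a ha _ (h j)).1, integral_const_mul, mul_left_comm]
    congr 2
    refine integral_congr_ae ?_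
    filter_upwards [FC.ae_good (hS ha) (K.g_ne a ha)] with p hp
    rw [(K.cl_top a ha _ (h j)).2 p hp]
  · filter_upwards [e] with p hp
    rw [hp, Finset.mul_sum, Finset.sum_mul]
    exact Finset.sum_congr rfl fun j _ => by ring

theorem ind_ae {l : Type} [Fintype l] {φ : l → (κ → Vp ν) → ℂ} (h : ∀ i, C.Mem q M K.g a (φ i))
    (ind : LinearIndependent ℂ fun i => K.cl a (φ i)) {c : l → ℂ}
    (e : ∀ᵐ p ∂C.μk a, ∑ j, c j * φ j p = 0) : c = 0 := by
  classical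
  refine funext (Fintype.linearIndependent_iff.1 ind c (qf_eq_zero (K.W.posH ha) ?_))
  rw [qf_comb_left, Finset.sum_eq_zero, Complex.zero_re]
  intro i _
  rw [qf_comb, ← K.pair hS ha h (ψ := fun _ => 0) (e.mono fun p hp => hp.symm)]
  simp

end Kum

variable (G : Subgroup (Equiv.Perm κ)) [Fintype G]

/-- the product of the permuted copies of a polynomial -/
def gp (h : MvPolynomial (κ × ν) ℂ) : MvPolynomial (κ × ν) ℂ :=
  ∏ σ : G, MvPolynomial.rename (Prod.map (σ : Equiv.Perm κ) id) h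

theorem gp_ne {h : MvPolynomial (κ × ν) ℂ} (h0 : h ≠ 0) : gp G h ≠ 0 :=
  Finset.prod_ne_zero_iff.2 fun σ _ e => h0 (MvPolynomial.rename_injective _
    ((σ : Equiv.Perm κ).injective.prodMap Function.injective_id) (by rw [e, map_zero]))

theorem eval_gp {h : MvPolynomial (κ × ν) ℂ} {p : κ → Vp ν} :
    MvPolynomial.eval (xs p) (gp G h) ≠ 0 ↔
      ∀ σ : G, MvPolynomial.eval (xs (pm (σ : Equiv.Perm κ) p)) h ≠ 0 := by
  simp only [gp, map_prod, Finset.prod_ne_zero_iff, Finset.mem_univ, true_imp_iff,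
    MvPolynomial.eval_rename]
  rfl

/-- the sum over the group -/
def av (φ : (κ → Vp ν) → ℂ) (p : κ → Vp ν) : ℂ := ∑ σ : G, φ (pm (σ : Equiv.Perm κ) p)

theorem av_inv (φ : (κ → Vp ν) → ℂ) {τ : Equiv.Perm κ} (hτ : τ ∈ G) (p : κ → Vp ν) :
    av G φ (pm τ p) = av G φ p :=
  Fintype.sum_equiv (Equiv.mulLeft (⟨τ, hτ⟩ : G)) _ _ fun _ => rfl

variable {G}

theorem good_pm {g : MvPolynomial (κ × ν) R} {p : κ → Vp ν} (hp : p ∈ C.Fk a)
    (h : MvPolynomial.eval (xs p) (gp G (MvPolynomial.map (C.ev a) g)) ≠ 0) (σ : G) :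
    pm (σ : Equiv.Perm κ) p ∈ C.good g a :=
  ⟨fun k => hp _, by rw [MvPolynomial.eval₂_eq_eval_map]; exact (eval_gp G).1 h σ⟩

theorem av_hol {g : MvPolynomial (κ × ν) R} {φ : (κ → Vp ν) → ℂ}
    (h : ∀ p ∈ C.good g a, HolAt (C.Fk a) φ p) {p : κ → Vp ν}
    (hp : ∀ σ : G, pm (σ : Equiv.Perm κ) p ∈ C.good g a) : HolAt (C.Fk a) (av G φ) p :=
  HolAt.sum _ fun σ _ => (h _ (hp σ)).comp (ana_pm _ _)
    (eventually_of_mem self_mem_nhdsWithin fun _ hx _ => hx _)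

theorem av_l2 (ha : a ∈ C.S0)
    (hG : ∀ σ ∈ G, ∀ p ∈ C.Fk a, ‖C.evp a (pm σ p) q‖ = ‖C.evp a p q‖)
    {φ : (κ → Vp ν) → ℂ} (h : C.L2 q M a φ) : C.L2 q M a (av G φ) := by
  have := memLp_finset_sum Finset.univ fun (σ : G) _ => h.perm ha (hG σ σ.2)
  simpa only [FC.L2, av, Finset.sum_mul] using this

theorem av_pair (ha : a ∈ C.S0)
    (hG : ∀ σ ∈ G, ∀ p ∈ C.Fk a, ‖C.evp a (pm σ p) q‖ = ‖C.evp a p q‖)
    {φ ψ : (κ → Vp ν) → ℂ} (h : C.L2 q M a φ) (h' : C.L2 q M a ψ)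
    (inv : ∀ σ ∈ G, ∀ p, φ (pm σ p) = φ p) :
    ∫ p, conj (φ p) * av G ψ p * (C.wt q M a p : ℂ) ∂C.μk a =
      Fintype.card G * ∫ p, conj (φ p) * ψ p * (C.wt q M a p : ℂ) ∂C.μk a := by
  simp only [av, Finset.mul_sum, Finset.sum_mul]
  rw [integral_finset_sum _ fun (σ : G) _ => h.int (h'.perm ha (hG σ σ.2)), ← nsmul_eq_mul,
    ← Finset.card_univ, ← Finset.sum_const]
  refine Finset.sum_congr rfl fun σ _ => ?_
  have m := C.perm ha (σ : Equiv.Perm κ)
  have := integral_map (μ := C.μk a) m.measurable.aemeasurable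
    (f := fun p => conj (φ p) * ψ p * (C.wt q M a p : ℂ)) (by rw [m.map_eq]; exact (h.int h').1)
  rw [m.map_eq] at this
  rw [this]
  refine integral_congr_ae ?_
  filter_upwards [FC.ae_Fk ha] with p hp
  simp only [FC.wt, hG σ σ.2 p hp, inv σ σ.2 p]

variable {E : Type} [NormedAddCommGroup E] [NormedSpace ℂ E]

/-- a point of the fibre extends to a holomorphic section -/
theorem FC.exists_sec [CompleteSpace E] {φ : E → A} {e : E} (h : Plot C.S0 φ e) {p : κ → Vp ν}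
    (hp : p ∈ C.Fk (φ e)) : ∃ P : E → κ → Vp ν, AnalyticAt ℂ P e ∧ P e = p ∧
      (∀ y, xs (P y) = xs p) ∧ ∀ᶠ y in 𝓝 e, P y ∈ C.Fk (φ y) := by
  obtain ⟨ω, h1, h2, h3, -⟩ := C.chart h hp
  have t : AnalyticAt ℂ (fun y : E => (y, xs p)) e := analyticAt_id.prod analyticAt_const
  exact ⟨fun y => pt (xs p) (ω (y, xs p)), (ana_pt (xs p, ω (e, xs p))).comp₂ analyticAt_const
    (AnalyticAt.comp (f := fun y : E => (y, xs p)) h1 t), h2, fun _ => rfl,
    t.continuousAt.eventually h3⟩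

theorem FC.ev_ne {φ : E → A} {e : E} (h : Plot C.S0 φ e) {g : MvPolynomial (κ × ν) R}
    {x : κ × ν → ℂ} (h0 : MvPolynomial.eval₂ (C.ev (φ e)) x g ≠ 0) :
    ∀ᶠ y in 𝓝 e, MvPolynomial.eval₂ (C.ev (φ y)) x g ≠ 0 := by
  obtain ⟨H, h1, h2⟩ := an_poly C.an h.mem g
  have h3 := h.tendsto.eventually h2
  have c : ContinuousAt (fun y => H (φ y, x)) e :=
    ((h1 x).comp₂ h.1 analyticAt_const).continuousAt
  filter_upwards [h3, c.eventually_ne (by rw [h3.self_of_nhds]; exact h0)] with y e1 e2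
  rwa [e1] at e2

omit [Fintype G] in
theorem Kum.orth (K : Kum C q M S n w) (hS : S ⊆ C.S0) (G : Subgroup (Equiv.Perm κ))
    (hG : ∀ σ ∈ G, ∀ a ∈ S, ∀ p ∈ C.Fk a, ‖C.evp a (fun k => p (σ k)) q‖ = ‖C.evp a p q‖)
    [FiniteDimensional ℂ E] {φ : E → A} {O : Set E} (hO : IsOpen O) (hφ : ∀ e ∈ O, Plot S φ e)
    {l : Type} [Fintype l] {Φ : l → E × (κ → Vp ν) → ℂ}
    (hol : ∀ i, ∀ e ∈ O, ∀ p ∈ C.Fk (φ e), C.evp (φ e) p q ≠ 0 → HolAt (C.tot φ O) (Φ i) (e, p))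
    (inv : ∀ i, ∀ σ ∈ G, ∀ e p, Φ i (e, fun k => p (σ k)) = Φ i (e, p))
    (mem : ∀ i, ∀ e ∈ O, C.Mem q M K.g (φ e) fun p => Φ i (e, p))
    (top : ∀ i, K.W.HolTop φ (fun e => K.cl (φ e) fun p => Φ i (e, p)) O)
    (ind : ∀ e ∈ O, LinearIndependent ℂ fun i => K.cl (φ e) fun p => Φ i (e, p))
    (full : O ⊆ closure {e | e ∈ O ∧ Full C q M G (φ e) fun i p => Φ i (e, p)})
    {e : E} (he : e ∈ O) (ξ : E) (i : l) : ∃ c : l → ℂ,
      K.W.π w (φ e) *ᵥ fderiv ℂ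
        (fun e' => cx (K.W.κ (φ e) (φ e')) *ᵥ K.cl (φ e') fun p => Φ i (e', p)) e ξ =
      ∑ j, c j • K.cl (φ e) fun p => Φ j (e, p) := by
  classical
  have := Fintype.ofFinite G
  have := FiniteDimensional.complete ℂ E
  have hN := hO.mem_nhds he
  refine K.W.full (eventually_of_mem hN hφ) hN top (ind e he) (fun O' v hO' he' hφ' hv => ?_) ξ i
  have pl : Plot C.S0 φ e := ⟨(hφ e he).1, (hφ e he).2.mono fun _ h => hS h⟩
  have me := (hφ e he).mem
  choose m t p hp using Or.exists_dual (U := {p // p ∈ C.Fk (φ e) ∧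
    MvPolynomial.eval (xs p) (gp G (MvPolynomial.map (C.ev (φ e)) K.g)) ≠ 0})
    (fun j p => Φ j (e, p.1)) fun c hc => K.ind_ae hS me (mem · e he) (ind e he)
      ((C.ae pl.mem (gp_ne G (K.g_ne _ me))).mono fun p h => hc ⟨p, h⟩)
  choose P P1 P2 P3 P4 using fun i s => FC.exists_sec pl (p i s).2.1
  have gd : ∀ᶠ y in 𝓝 e, ∀ i s (σ : G), pm (σ : Equiv.Perm κ) (P i s y) ∈ C.good K.g (φ y) := by
    refine eventually_all.2 fun i => eventually_all.2 fun s => eventually_all.2 fun σ => ?_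
    filter_upwards [P4 i s, FC.ev_ne pl (good_pm (p i s).2.1 (p i s).2.2 σ).2] with y h1 h2
    refine ⟨fun k => h1 _, ?_⟩
    rwa [show xs (pm (σ : Equiv.Perm κ) (P i s y)) = xs (pm (σ : Equiv.Perm κ) (p i s).1) from
      funext fun k => congrFun (P3 i s y) (σ.1 k.1, k.2)]
  obtain ⟨c, c1, c2⟩ := Or.exists_sol (x := e)
    (N := fun y => Matrix.of fun i j => ∑ s, t i s * Φ j (y, P i s y))
    (r := fun y i => ∑ s, t i s * av G (K.rep (φ y) (v y)) (P i s y))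
    (fun i j => Finset.analyticAt_fun_sum
      (f := fun s y => t i s * Φ j (y, P i s y)) Finset.univ
      fun s _ => analyticAt_const.mul (hol j e he (P i s e)
      (gd.self_of_nhds i s 1).1 (K.q_ne _ me _ (gd.self_of_nhds i s 1)) E (fun y => (y, P i s y)) e
      ⟨analyticAt_id.prod (P1 i s), (P4 i s).mp (eventually_of_mem hN fun y h1 h2 => ⟨h1, h2⟩)⟩
      rfl))
    (fun i => Finset.analyticAt_fun_sum _ fun s _ => analyticAt_const.mul
      (Finset.analyticAt_fun_sum _ fun σ _ => K.fam_rep E φ O' v hO' hφ' hv e he' _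
        (gd.self_of_nhds i s σ) E (fun y => (y, pm (σ : Equiv.Perm κ) (P i s y))) e
        ⟨analyticAt_id.prod ((ana_pm _ _).comp (P1 i s)), (P4 i s).mp (eventually_of_mem
          (hO'.mem_nhds he') fun y h1 h2 => ⟨h1, fun k => h2 _⟩)⟩ rfl))
    (by
      rw [show (Matrix.of fun i j => ∑ s, t i s * Φ j (e, P i s e)) = 1 from
        Matrix.ext fun i j => by simp only [of_apply, P2, hp], det_one]
      exact one_ne_zero)
  have cG : (Fintype.card G : ℂ) ≠ 0 := Nat.cast_ne_zero.2 Fintype.card_ne_zero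
  refine ⟨fun y j => c y j / Fintype.card G,
    fun j => ((c1 j).div analyticAt_const cG).differentiableAt, ?_⟩
  have key : ∀ᶠ y in 𝓝 e, y ∈ O ∧ Full C q M G (φ y) (fun i p => Φ i (y, p)) → ∀ i,
      qf (K.W.H (φ y)) (K.cl (φ y) fun p => Φ i (y, p)) (v y) = ∑ j, c y j / Fintype.card G *
        qf (K.W.H (φ y)) (K.cl (φ y) fun p => Φ i (y, p)) (K.cl (φ y) fun p => Φ j (y, p)) := by
    filter_upwards [gd, c2, hO'.mem_nhds he'] with y g1 g2 y' ⟨hy, hf⟩ i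
    have my := (hφ y hy).mem
    have rm := K.rep_mem _ my _ (hv y y').2
    have hG' := fun σ hσ => hG σ hσ _ my
    obtain ⟨d, h', h0, hd⟩ := hf _ (av G (K.rep (φ y) (v y))) (gp_ne G (K.g_ne _ my))
      (fun p hp h => av_hol rm.1 (good_pm hp h)) (fun σ hσ p => av_inv G _ hσ p)
      (av_l2 (hS my) hG' (K.l2 hS my rm)).lint
    have e1 : ∀ i s, av G (K.rep (φ y) (v y)) (P i s y) = ∑ j, d j * Φ j (y, P i s y) :=
      fun i s => Or.eq_of_closure (f := av G (K.rep (φ y) (v y)))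
        (g := fun p => ∑ j, d j * Φ j (y, p)) (C.dense (hS my) h0 (g1 i s 1).1)
        ((C.contWithin (hS my) (g1 i s 1).1 (av_hol rm.1 (g1 i s))).mono fun _ h => h.1)
        ((C.contWithin (hS my) (g1 i s 1).1 (HolAt.sum _ fun j _ => (HolAt.of_analyticAt
          analyticAt_const).mul ((mem j y hy).1 _ (g1 i s 1)))).mono fun _ h => h.1)
        (Eventually.of_forall fun p h => hd p h.1 h.2)
    have e2 := g2 d (funext fun i => by
      simp only [mulVec, dotProduct, of_apply, e1, Finset.mul_sum, Finset.sum_mul]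
      rw [Finset.sum_comm]
      exact Finset.sum_congr rfl fun s _ => Finset.sum_congr rfl fun j _ => by ring)
    have e3 := K.pair hS my (mem · y hy)
      ((C.ae (hS my) h0).mono fun p h => hd p h.1 h.2) i
    rw [av_pair (hS my) hG' (K.l2 hS my (mem i y hy)) (K.l2 hS my rm) (fun σ hσ p => inv i σ hσ y p),
      mul_left_comm, ← K.adj _ my _ _ (mem i y hy) (hv y y').2] at e3
    refine mul_left_cancel₀ cG ?_
    rw [e3, Finset.mul_sum, ← e2]
    exact Finset.sum_congr rfl fun j _ => by field_simp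
  filter_upwards [key.eventually_nhds, hN, hO'.mem_nhds he',
    eventually_all.2 fun j => (c1 j).eventually_continuousAt] with y k1 hy hy' k2 i
  exact Or.eq_of_closure (full hy)
    (VHS.continuousAt_qf (hφ y hy) (top i y hy).1.continuousAt
      (hv y hy').1.continuousAt).continuousWithinAt
    (ContinuousAt.continuousWithinAt (tendsto_finsetSum _ fun j _ => ((k2 j).div_const _).mul
      (VHS.continuousAt_qf (hφ y hy) (top i y hy).1.continuousAt (top j y hy).1.continuousAt)))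
    (k1.mono fun z h1 h2 => h1 h2 i)

end

end Pool.Agent.Lib.MP_5c318e_ag.Ku
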