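import Pool.Agent.Lib.MP_5c318e_ag.V.Alg
import Pool.Agent.Lib.MP_5c318e_ag.H.Reg

/-! A holomorphic subbundle of the top piece with holomorphic orthogonal projection is preserved
by the metric connection. -/

set_option autoImplicit false
set_option linter.unusedSectionVars false

namespace Pool.Agent.Lib.MP_5c318e_ag.V

open Matrix Filter Topology MeasureTheory Complex
open scoped ComplexOrder ComplexConjugate

variable {E : Type} [NormedAddCommGroup E] [NormedSpace ℂ E]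
variable {n k : Type} [Fintype n] [DecidableEq n] [Fintype k] [DecidableEq k]

theorem fil_top {w : ℕ} {π : ℤ → E → Matrix n n ℂ} {x : E} :
    fil (wt w) π w x = π w x := by
  rw [fil, Finset.sum_eq_single (w : ℤ)]
  · simp
  · intro q hq hne
    have : ¬ (w : ℤ) ≤ q := fun h => hne (le_antisymm (Finset.mem_Icc.1 hq).2 h)
    simp [this]
  · intro h
    exact absurd (Finset.mem_Icc.2 ⟨Int.natCast_nonneg w, le_rfl⟩) h

/-- a top vector extends to a holomorphic top section -/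
theorem LV.exists_top {U : Set E} {Q : Matrix n n ℂ} {w : ℕ} {π : ℤ → E → Matrix n n ℂ}
    (L : LV U Q (wt w) π) {x : E} (hx : x ∈ U) {z : n → ℂ} (hz : π w x *ᵥ z = z) :
    ∃ v : E → n → ℂ, v x = z ∧ ∀ᶠ y in 𝓝 x,
      (∀ i, DifferentiableAt ℂ (fun y => v y i) y) ∧ π w y *ᵥ v y = v y := by
  obtain ⟨e, e0, he⟩ := L.dlv.hol_frame hx w
  refine ⟨fun y => e y *ᵥ z, by simp only [e0, fil_top, hz], he.mono fun y hy => ⟨fun i => ?_, ?_⟩⟩
  · simp only [mulVec, dotProduct]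
    exact DifferentiableAt.fun_sum fun j _ => (hy.1 i j).mul_const _
  · rw [mulVec_mulVec, ← fil_top (π := π), hy.2.1]

theorem top_eq_zero {Q : Matrix n n ℂ} {w : ℕ} {P : ℤ → Matrix n n ℂ} (h : Prj (wt w) P)
    (hp : (Q * weyP w P).PosDef) {z : n → ℂ} (hz : P w *ᵥ z = z) (h0 : qf Q z z = 0) : z = 0 := by
  refine qf_eq_zero hp ?_
  have e : weyP w P *ᵥ z = (-1 : ℂ) ^ (w : ℤ) • z := by
    conv_lhs => rw [← hz, mulVec_mulVec, weyP, h.sum_mul, smul_mulVec, hz]
  rw [← qf_mulVec_right, e, qf_smul_right, h0]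
  simp

/-- FULLNESS -/
theorem LV.full {U : Set E} {Q : Matrix n n ℂ} {w : ℕ} {π : ℤ → E → Matrix n n ℂ}
    (L : LV U Q (wt w) π) {x : E} (hx : x ∈ U) {X : E → Matrix n k ℂ}
    (hX : ∀ i j, DifferentiableAt ℂ (fun y => X y i j) x) (ht : π w x * X x = X x)
    (hG : ((X x)ᴴ * Q * X x).det ≠ 0)
    (H : ∀ v : E → n → ℂ, (∀ᶠ y in 𝓝 x,
      (∀ i, DifferentiableAt ℂ (fun y => v y i) y) ∧ π w y *ᵥ v y = v y) →
      ∃ a : E → k → ℂ, (∀ j, DifferentiableAt ℂ (fun y => a y j) x) ∧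
        ∀ᶠ y in 𝓝 x, ((X y)ᴴ * Q) *ᵥ v y = ((X y)ᴴ * Q * X y) *ᵥ a y) (ξ : E) :
    ∃ c : Matrix k k ℂ, π w x * derM (-I) ξ X x = X x * c := by
  set G := (X x)ᴴ * Q * X x with hGd
  set dX := derM (-I) ξ X x with hdX
  refine ⟨G⁻¹ * ((X x)ᴴ * Q * dX), sub_eq_zero.1 ?_⟩
  set Z := π w x * dX - X x * (G⁻¹ * ((X x)ᴴ * Q * dX)) with hZ
  have pr := L.prj x hx
  have ad := L.adj x hx w
  have z1 : π w x * Z = Z := by
    rw [hZ, Matrix.mul_sub, ← Matrix.mul_assoc, pr.idem, ← Matrix.mul_assoc, ht]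
  have xq : (X x)ᴴ * Q * π w x = (X x)ᴴ * Q := by
    rw [Matrix.mul_assoc, ← ad, ← Matrix.mul_assoc, ← conjTranspose_mul, ht]
  have z2 : (X x)ᴴ * Q * Z = 0 := by
    rw [hZ, Matrix.mul_sub, ← Matrix.mul_assoc, xq, ← Matrix.mul_assoc _ (X x), ← hGd,
      ← Matrix.mul_assoc G, Matrix.mul_nonsing_inv _ hG.isUnit, Matrix.one_mul, sub_self]
  ext i0 j0
  let z : n → ℂ := Z *ᵥ Pi.single j0 1
  have hz : π w x *ᵥ z = z := by rw [mulVec_mulVec, z1]
  have hz2 : ((X x)ᴴ * Q) *ᵥ z = 0 := by rw [mulVec_mulVec, z2, zero_mulVec]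
  obtain ⟨v, v0, hv⟩ := L.exists_top hx hz
  obtain ⟨a, ha, he⟩ := H v hv
  have a0 : a x = 0 := by
    have := he.self_of_nhds
    rw [v0, hz2, ← hGd] at this
    have := congrArg (fun u => G⁻¹ *ᵥ u) this
    simpa only [mulVec_mulVec, Matrix.nonsing_inv_mul _ hG.isUnit, one_mulVec, mulVec_zero]
      using this.symm
  let u : E → n → ℂ := fun y => Q *ᵥ (v y - X y *ᵥ a y)
  have hu : ∀ i, DifferentiableAt ℂ (fun y => u y i) x := fun i => by
    simp only [u, mulVec, dotProduct, Pi.sub_apply]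
    exact DifferentiableAt.fun_sum fun l _ => ((hv.self_of_nhds.1 l).fun_sub
      (DifferentiableAt.fun_sum fun j _ => (hX l j).fun_mul (ha j))).const_mul _
  have u0 : u x = Q *ᵥ z := by simp [u, a0, v0]
  have key : dXᴴ *ᵥ (Q *ᵥ z) = 0 := by
    funext j
    have e : (fun y => ∑ i, conj (X y i j) * u y i) =ᶠ[𝓝 x] fun _ => 0 := he.mono fun y hy => by
      have := congrFun (sub_eq_zero.2 hy) j
      rw [← mulVec_mulVec (a y), ← mulVec_sub, ← mulVec_mulVec] at this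
      simpa [mulVec, dotProduct, u] using this
    have d := der_congr (c := I) (ξ := ξ) e
    rw [der_const, der_sum _ fun i _ => (df_conj ((hX i j).restrictScalars ℝ)).fun_mul
      ((hu i).restrictScalars ℝ)] at d
    rw [Pi.zero_apply, ← d, ← u0]
    simp only [mulVec, dotProduct, conjTranspose_apply]
    refine Finset.sum_congr rfl fun i _ => ?_
    rw [der_mul (df_conj ((hX i j).restrictScalars ℝ)) ((hu i).restrictScalars ℝ),
      dbar_holo (hu i), mul_zero, add_zero, der_conj ((hX i j).restrictScalars ℝ), conj_I]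
    rfl
  have zz : Zᴴ *ᵥ (Q *ᵥ z) = 0 := by
    rw [hZ, conjTranspose_sub, sub_mulVec, conjTranspose_mul, conjTranspose_mul, ← mulVec_mulVec,
      ← mulVec_mulVec, mulVec_mulVec z (π w x)ᴴ, ad, ← mulVec_mulVec, hz, key,
      mulVec_mulVec z (X x)ᴴ, hz2, mulVec_zero, sub_self]
  have z0 : z = 0 := top_eq_zero pr (L.pos x hx) hz (by
    rw [qf, show star z = star (Pi.single j0 (1 : ℂ)) ᵥ* Zᴴ from star_mulVec _ _,
      ← dotProduct_mulVec, zz, dotProduct_zero])
  simpa [z] using congrFun z0 i0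

/-- continuous functions that agree almost everywhere near a point agree near it -/
theorem ev_of_ae {F : Type} [TopologicalSpace F] [T2Space F] [MeasurableSpace E] [BorelSpace E]
    (μ : Measure E) [μ.IsOpenPosMeasure] {f g : E → F} {x : E}
    (hf : ∀ᶠ y in 𝓝 x, ContinuousAt f y) (hg : ∀ᶠ y in 𝓝 x, ContinuousAt g y)
    {N : Set E} (hN : N ∈ 𝓝 x) (h : ∀ᵐ y ∂μ, y ∈ N → f y = g y) : f =ᶠ[𝓝 x] g := by
  obtain ⟨O, hO, ho, hx⟩ := eventually_nhds_iff.1 (hf.and (hg.and hN))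
  refine eventually_of_mem (ho.mem_nhds hx) (Measure.eqOn_open_of_ae_eq (μ := μ) ?_ ho
    (fun y hy => (hO y hy).1.continuousWithinAt) fun y hy => (hO y hy).2.1.continuousWithinAt)
  filter_upwards [ae_restrict_of_ae h, ae_restrict_mem ho.measurableSet] with y h1 h2
  exact h1 (hO y h2).2.2

end Pool.Agent.Lib.MP_5c318e_ag.V
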