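import Pool.Agent.Lib.MP_5c318e_ag.O.Full
import Pool.Agent.Lib.MP_5c318e_ag.V.Frame
import Pool.Agent.Lib.MP_5c318e_ag.T.Hol

/-! Fullness for variations along a plot. -/

set_option autoImplicit false
set_option linter.unusedSectionVars false

namespace Pool.Agent.Lib.MP_5c318e_ag.V

open Matrix Filter Topology MeasureTheory Complex
open scoped ComplexOrder ComplexConjugate

variable {A : Type} [NormedAddCommGroup A] [NormedSpace ℂ A] {S : Set A} {w : ℕ}
  {n k : Type} [Fintype n] [DecidableEq n] [Fintype k] [DecidableEq k]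

theorem VHS.H_top (W : VHS A S n w) {s : A} (hs : s ∈ S) {X : Matrix n k ℂ}
    (h : W.π w s * X = X) : Xᴴ * W.H s = (-1 : ℂ) ^ (w : ℤ) • (Xᴴ * W.ψ s) := by
  have p := W.phs s hs
  have e : weyP w (fun p => W.π p s) * X = (-1 : ℂ) ^ (w : ℤ) • X := by
    conv_lhs => rw [← h, ← Matrix.mul_assoc, p.wey_mul, Matrix.smul_mul, h]
  change Xᴴ * (W.ψ s * weyP w fun p => W.π p s) = _
  rw [← p.wey_adj, ← Matrix.mul_assoc, ← conjTranspose_mul, e, conjTranspose_smul, Matrix.smul_mul]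
  simp

theorem qf_comb (M : Matrix n n ℂ) (u : n → ℂ) (c : k → ℂ) (v : k → n → ℂ) :
    qf M u (∑ j, c j • v j) = ∑ j, c j * qf M u (v j) := by
  simp only [qf, mulVec_sum, dotProduct_sum, mulVec_smul, dotProduct_smul, smul_eq_mul]

theorem qf_comb_left (M : Matrix n n ℂ) (u : n → ℂ) (c : k → ℂ) (v : k → n → ℂ) :
    qf M (∑ j, c j • v j) u = ∑ j, conj (c j) * qf M (v j) u := by
  simp only [qf, star_sum, sum_dotProduct, star_smul, smul_dotProduct, smul_eq_mul, star_def]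

variable {E : Type} [NormedAddCommGroup E] [NormedSpace ℂ E]

/-- the variation near a point of a plot, in the frame of that point -/
theorem VHS.exists_lv_plot (W : VHS A S n w) {φ : E → A} {a0 : E}
    (hφ : ∀ᶠ a in 𝓝 a0, Plot S φ a) : ∃ O, IsOpen O ∧ a0 ∈ O ∧ (∀ a ∈ O, Plot S φ a) ∧
      IsFr O (fun a a' => W.κ (φ a) (φ a')) (fun a => W.κ (φ a0) (φ a)) ∧
      (∀ a ∈ O, W.ψ (φ a) = (cx (W.κ (φ a0) (φ a)))ᴴ * W.ψ (φ a0) * cx (W.κ (φ a0) (φ a))) ∧
      LV O (W.ψ (φ a0)) (wt w)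
        fun p a => cx (W.κ (φ a0) (φ a)) * W.π p (φ a) * cx (W.κ (φ a0) (φ a))⁻¹ := by
  have h1 := hφ.self_of_nhds
  obtain ⟨N, hN, hxN, hk⟩ := W.germ.exists_fr h1.mem
  obtain ⟨O, hO, ho, hx⟩ := eventually_nhds_iff.1 (hφ.and
    ((h1.tendsto.eventually (W.flat _ h1.mem)).and
      (h1.1.continuousAt.eventually (hN.mem_nhds hxN))))
  have fr := hk.comp_cont (O' := O) (f := φ)
    (fun a ha => (hO a ha).1.1.continuousAt.continuousWithinAt) fun a ha =>
      ⟨(hO a ha).2.2, (hO a ha).1.mem⟩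
  refine ⟨O, ho, hx, fun a ha => (hO a ha).1, fr, fun a ha => (hO a ha).2.1,
    W.lv ho (fun a ha => (hO a ha).1.1) (fun a ha => (hO a ha).1.mem) fr fun a ha => ?_⟩
  rw [(hO a ha).2.1, ← Matrix.mul_assoc, ← Matrix.mul_assoc, ← conjTranspose_mul, cx_mul_inv,
    conjTranspose_one, Matrix.one_mul, Matrix.mul_assoc, cx_mul_inv, Matrix.mul_one]

/-- fullness along a plot -/
theorem VHS.full [FiniteDimensional ℂ E] (W : VHS A S n w) {φ : E → A} {a0 : E}
    (hφ : ∀ᶠ a in 𝓝 a0, Plot S φ a) {X : k → E → n → ℂ} {O0 : Set E} (h0 : O0 ∈ 𝓝 a0)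
    (hX : ∀ i, W.HolTop φ (X i) O0) (ind : LinearIndependent ℂ fun i => X i a0)
    (H : ∀ (O : Set E) (v : E → n → ℂ), IsOpen O → a0 ∈ O → (∀ a ∈ O, Plot S φ a) →
      W.HolTop φ v O → ∃ c : E → k → ℂ, (∀ j, DifferentiableAt ℂ (fun a => c a j) a0) ∧
        ∀ᶠ a in 𝓝 a0, ∀ i, qf (W.H (φ a)) (X i a) (v a) =
          ∑ j, c a j * qf (W.H (φ a)) (X i a) (X j a)) (ξ : E) (i : k) :
    ∃ c : k → ℂ, W.π w (φ a0) *ᵥ fderiv ℂ (fun a => cx (W.κ (φ a0) (φ a)) *ᵥ X i a) a0 ξ =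
      ∑ j, c j • X j a0 := by
  obtain ⟨O, ho, hx, pl, fr, fl, L⟩ := W.exists_lv_plot hφ
  have m0 := (pl a0 hx).mem
  have k0 : W.κ (φ a0) (φ a0) = 1 := W.germ.self _ m0
  have x0 := mem_of_mem_nhds h0
  let Y : E → Matrix n k ℂ := fun a => Matrix.of fun l i => X i a l
  let κ : E → GL n ℤ := fun a => W.κ (φ a0) (φ a)
  have Yt : ∀ a ∈ O0, W.π w (φ a) * Y a = Y a := fun a ha => by
    ext l j
    exact congrFun (hX j a ha).2 l
  have YQ : ∀ a ∈ O, a ∈ O0 → (cx (κ a) * Y a)ᴴ * W.ψ (φ a0) =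
      (-1 : ℂ) ^ (w : ℤ) • ((Y a)ᴴ * W.H (φ a) * cx (κ a)⁻¹) := fun a ha ha0 => by
    rw [W.H_top (pl a ha).mem (Yt a ha0), Matrix.smul_mul, smul_smul, ← mul_zpow, fl a ha,
      conjTranspose_mul]
    simp only [Matrix.mul_assoc, cx_mul_inv, Matrix.mul_one, κ]
    simp
  have qY : ∀ (a : E) (v : n → ℂ) (i : k), (((Y a)ᴴ * W.H (φ a)) *ᵥ v) i =
      qf (W.H (φ a)) (X i a) v := fun a v i => by
    rw [← mulVec_mulVec]
    simp [qf, mulVec, dotProduct, Y]
  have Yv : ∀ (a : E) (c : k → ℂ), Y a *ᵥ c = ∑ j, c j • X j a := fun a c => by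
    funext l
    simp [mulVec, dotProduct, Y, mul_comm]
  have hd : ∀ l j, DifferentiableAt ℂ (fun a => (cx (κ a) * Y a) l j) a0 := fun l j =>
    differentiableAt_pi.1 (hX j a0 x0).1.differentiableAt l
  obtain ⟨c, hc⟩ := L.full hx (X := fun a => cx (κ a) * Y a) hd (by
      simp only [κ, k0, inv_one, cx_one, Matrix.one_mul, Matrix.mul_one, Yt a0 x0]) (by
      rw [YQ a0 hx x0]
      simp only [κ, k0, inv_one, cx_one, Matrix.one_mul, Matrix.mul_one, Matrix.smul_mul, det_smul]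
      refine mul_ne_zero (by simp [zpow_ne_zero]) (Matrix.PosDef.det_pos ?_).ne'
      refine (W.H_pos m0).conjTranspose_mul_mul_same fun c c' e => ?_
      rw [Yv, Yv] at e
      exact funext (Fintype.linearIndependent_iffₛ.1 ind c c' e)) (fun v hv => by
      obtain ⟨O', hO', ho', hx'⟩ := eventually_nhds_iff.1 (hv.and (ho.mem_nhds hx))
      have hT : W.HolTop φ (fun a => cx (κ a)⁻¹ *ᵥ v a) O' := fun a ha => by
        refine ⟨?_, ?_⟩
        · have an : AnalyticAt ℂ (fun a' => cx (κ a)⁻¹ *ᵥ v a') a := by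
            refine analyticAt_pi_iff.2 fun l => ?_
            simp only [mulVec, dotProduct]
            exact Finset.analyticAt_fun_sum _ fun j _ => analyticAt_const.mul (analyticAt_of_holo
              (eventually_of_mem (ho'.mem_nhds ha) fun b hb => (hO' b hb).1.1 j))
          refine an.congr ?_
          filter_upwards [Fr.ev_within ho (hO' a ha).2 (fr a (hO' a ha).2)] with b hb
          rw [mulVec_mulVec, ← cx_mul]
          simp only [κ, hb, _root_.mul_inv_rev, mul_inv_cancel_left]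
        · beta_reduce
          conv_rhs => rw [← (hO' a ha).1.2]
          simp only [mulVec_mulVec, κ, ← Matrix.mul_assoc, cx_inv_mul, Matrix.one_mul]
      obtain ⟨c, hc, he⟩ := H O' _ ho' hx' (fun a ha => pl a (hO' a ha).2) hT
      refine ⟨c, hc, ?_⟩
      filter_upwards [he, ho.mem_nhds hx, h0] with a e ha ha0
      rw [YQ a ha ha0, smul_mulVec, Matrix.smul_mul, smul_mulVec, ← mulVec_mulVec,
        Matrix.mul_assoc _ (cx (κ a)⁻¹), ← Matrix.mul_assoc (cx (κ a)⁻¹), cx_inv_mul,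
        Matrix.one_mul, ← mulVec_mulVec (c a), Yv]
      congr 1
      funext i
      rw [qY, qY, e i, qf_comb]) ξ
  refine ⟨fun j => c j i, ?_⟩
  simp only [κ, k0, inv_one, cx_one, Matrix.one_mul, Matrix.mul_one] at hc
  rw [← Yv, fderiv_pi (differentiableAt_pi.1 (hX i a0 x0).1.differentiableAt)]
  funext l
  refine Eq.trans ?_ (congrFun (congrFun hc l) i)
  simp only [mulVec.eq_1 (W.π w (φ a0)), dotProduct, Matrix.mul_apply (M := W.π w (φ a0)), derM,
    of_apply]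
  refine Finset.sum_congr rfl fun j _ => ?_
  rw [d_holo (hd j i)]
  rfl

end Pool.Agent.Lib.MP_5c318e_ag.V
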